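import Pool.Agent.K3h75.ND.StmN

/-!
# Ekedahl's sieve
-/

set_option autoImplicit false

namespace Pool.Agent.K3h33.ND

open Finset MvPolynomial Pool.Agent.K3h75.ND

section count

lemma cnt {α β : Type} [DecidableEq α] [DecidableEq β] (S : Finset α) (T : α → Finset β)
    (Z : Finset (α × β)) (h : ∀ z ∈ Z, z.1 ∈ S ∧ z.2 ∈ T z.1) (t : ℝ)
    (ht : ∀ b ∈ S, ((T b).card : ℝ) ≤ t) : (Z.card : ℝ) ≤ S.card * t := by
  have h1 : Z ⊆ S.biUnion fun b => (T b).image fun c => (b, c) := by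
    intro z hz
    rw [mem_biUnion]
    obtain ⟨h2, h3⟩ := h z hz
    exact ⟨z.1, h2, mem_image.2 ⟨z.2, h3, rfl⟩⟩
  calc (Z.card : ℝ) ≤ ((S.biUnion fun b => (T b).image fun c => (b, c)).card : ℝ) := by
        exact_mod_cast card_le_card h1
    _ ≤ ((∑ b ∈ S, ((T b).image fun c => (b, c)).card : ℕ) : ℝ) := by
        exact_mod_cast card_biUnion_le
    _ ≤ ∑ b ∈ S, ((T b).card : ℝ) := by
        push_cast
        exact sum_le_sum fun b _ => by exact_mod_cast card_image_le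
    _ ≤ ∑ _b ∈ S, t := sum_le_sum ht
    _ = S.card * t := by rw [sum_const, nsmul_eq_mul]

/-- integers in a residue class in an interval -/
noncomputable def Cl (Q M : ℕ) (c₀ : ℤ) : Finset ℤ :=
  (Icc (-(M : ℤ)) M).filter fun x => (Q : ℤ) ∣ x - c₀

lemma mem_Cl {Q M : ℕ} {c₀ x : ℤ} : x ∈ Cl Q M c₀ ↔ |x| ≤ M ∧ (Q : ℤ) ∣ x - c₀ := by
  rw [Cl, mem_filter, mem_Icc, abs_le]

lemma card_Cl {Q : ℕ} (hQ : 1 ≤ Q) (M : ℕ) (c₀ : ℤ) :
    ((Cl Q M c₀).card : ℝ) ≤ 2 * M / Q + 2 := by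
  have hQ0 : (0 : ℤ) < Q := by exact_mod_cast hQ
  have h1 := Int.Ioc_filter_modEq_card (-(M : ℤ) - 1) M hQ0 c₀
  have h2 : Cl Q M c₀ = (Ioc (-(M : ℤ) - 1) M).filter (fun x => x ≡ c₀ [ZMOD Q]) := by
    ext x
    rw [mem_Cl, mem_filter, mem_Ioc, abs_le]
    constructor
    · rintro ⟨⟨a, b⟩, c⟩
      exact ⟨⟨by omega, b⟩, (Int.modEq_iff_dvd.2 (by rwa [← neg_sub, dvd_neg] at c))⟩
    · rintro ⟨⟨a, b⟩, c⟩
      refine ⟨⟨by omega, b⟩, ?_⟩
      have := Int.modEq_iff_dvd.1 c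
      rwa [← neg_sub, dvd_neg] at this
  rw [← h2] at h1
  have hQR : (0 : ℝ) < Q := by exact_mod_cast hQ
  have hQ1 : (1 : ℝ) ≤ Q := by exact_mod_cast hQ
  rcases le_total (⌊((M : ℤ) - c₀ : ℚ) / (Q : ℤ)⌋ - ⌊((-(M : ℤ) - 1 : ℤ) - c₀ : ℚ) / (Q : ℤ)⌋) 0
    with h3 | h3
  · have h4 : ((Cl Q M c₀).card : ℤ) = 0 := by
      rw [h1]
      exact max_eq_right (by exact_mod_cast h3)
    have h5 : ((Cl Q M c₀).card : ℝ) = 0 := by exact_mod_cast h4
    rw [h5]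
    positivity
  · have h4 : ((Cl Q M c₀).card : ℤ) =
        ⌊((M : ℤ) - c₀ : ℚ) / (Q : ℤ)⌋ - ⌊((-(M : ℤ) - 1 : ℤ) - c₀ : ℚ) / (Q : ℤ)⌋ := by
      rw [h1]
      exact max_eq_left (by exact_mod_cast h3)
    have h5 := Int.floor_le (((M : ℤ) - c₀ : ℚ) / (Q : ℤ))
    have h6 := Int.lt_floor_add_one (((-(M : ℤ) - 1 : ℤ) - c₀ : ℚ) / (Q : ℤ))
    have h7 : (((Cl Q M c₀).card : ℤ) : ℚ) ≤ 2 * M / Q + 2 := by
      rw [h4]
      push_cast at h5 h6 ⊢
      have e1 : ((M : ℚ) - c₀) / Q - ((-(M : ℚ) - 1 - c₀) / Q) = 2 * M / Q + 1 / Q := by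
        ring
      have e2 : (1 : ℚ) / Q ≤ 1 := by
        rw [div_le_one (by exact_mod_cast hQ)]
        exact_mod_cast hQ
      linarith
    have h8 : (((Cl Q M c₀).card : ℚ) : ℝ) ≤ ((2 * M / Q + 2 : ℚ) : ℝ) := by exact_mod_cast h7
    push_cast at h8
    exact h8

variable {ι : Type} [Fintype ι]

/-- the box -/
noncomputable def Bx [DecidableEq ι] (Q M : ℕ) (b₀ : ι → ℤ) : Finset (ι → ℤ) :=
  Fintype.piFinset fun i => Cl Q M (b₀ i)

lemma mem_Bx [DecidableEq ι] {Q M : ℕ} {b₀ b : ι → ℤ} :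
    b ∈ Bx Q M b₀ ↔ ∀ i, |b i| ≤ M ∧ (Q : ℤ) ∣ b i - b₀ i := by
  rw [Bx, Fintype.mem_piFinset]
  exact forall_congr' fun i => mem_Cl

lemma card_Bx [DecidableEq ι] {Q : ℕ} (hQ : 1 ≤ Q) (M : ℕ) (b₀ : ι → ℤ) :
    ((Bx Q M b₀).card : ℝ) ≤ (2 * M / Q + 2) ^ Fintype.card ι := by
  rw [Bx, Fintype.card_piFinset]
  push_cast
  calc ∏ i, ((Cl Q M (b₀ i)).card : ℝ) ≤ ∏ _i : ι, (2 * (M : ℝ) / Q + 2) :=
        prod_le_prod (fun i _ => by positivity) fun i _ => card_Cl hQ M (b₀ i)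
    _ = _ := by rw [prod_const, card_univ]

lemma eval_bound (Δ : MvPolynomial ι ℤ) {H : ℕ} (hH : 1 ≤ H) {b : ι → ℤ}
    (hb : ∀ i, |b i| ≤ 2 * H) :
    (eval b Δ).natAbs ≤ ((∑ m ∈ Δ.support, (coeff m Δ).natAbs) * 2 ^ Δ.totalDegree) *
      H ^ Δ.totalDegree := by
  have h1 : |eval b Δ| ≤ (∑ m ∈ Δ.support, |coeff m Δ|) * (2 * (H : ℤ)) ^ Δ.totalDegree := by
    rw [eval_eq', sum_mul]
    refine (abs_sum_le_sum_abs _ _).trans (sum_le_sum fun m hm => ?_)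
    rw [abs_mul]
    refine mul_le_mul_of_nonneg_left ?_ (abs_nonneg _)
    rw [abs_prod]
    calc ∏ i, |b i ^ m i| ≤ ∏ i, (2 * (H : ℤ)) ^ m i := by
          refine prod_le_prod (fun i _ => abs_nonneg _) fun i _ => ?_
          rw [abs_pow]
          exact pow_le_pow_left₀ (abs_nonneg _) (hb i) _
      _ = (2 * (H : ℤ)) ^ ∑ i, m i := prod_pow_eq_pow_sum _ _ _
      _ ≤ (2 * (H : ℤ)) ^ Δ.totalDegree := by
          refine pow_le_pow_right₀ (by have : (1 : ℤ) ≤ H := by exact_mod_cast hH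
                                       linarith) ?_
          have h2 := le_totalDegree hm
          rwa [Finsupp.sum_fintype _ _ fun _ => rfl] at h2
  have h2 : ((eval b Δ).natAbs : ℤ) ≤ (((∑ m ∈ Δ.support, (coeff m Δ).natAbs) *
      2 ^ Δ.totalDegree) * H ^ Δ.totalDegree : ℕ) := by
    rw [Int.natCast_natAbs]
    refine h1.trans (le_of_eq ?_)
    push_cast
    rw [mul_pow]
    ring
  exact_mod_cast h2

/-- the number of large prime divisors -/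
lemma few_primes {N A D H Q : ℕ} (hN : N ≠ 0) (hNA : N ≤ A * H ^ D) (hQ : Q ^ 2 ≤ H)
    (hA : A ^ 2 < H) (hH : 2 ≤ H) (S : Finset ℕ) (hS : ∀ p ∈ S, p.Prime ∧ p ∣ N ∧ H < p * Q) :
    S.card ≤ 2 * D := by
  have h1 : S ⊆ N.primeFactors := fun p hp => by
    obtain ⟨a, b, -⟩ := hS p hp
    exact Nat.mem_primeFactors.2 ⟨a, b, hN⟩
  have h2 : ∏ p ∈ S, p ∣ N := (prod_dvd_prod_of_subset _ _ _ h1).trans (Nat.prod_primeFactors_dvd N)
  have h3 : ∏ p ∈ S, p ≤ A * H ^ D := (Nat.le_of_dvd (Nat.pos_of_ne_zero hN) h2).trans hNA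
  have h4 : H ^ S.card ≤ (∏ p ∈ S, p) * Q ^ S.card := by
    rw [← prod_const, ← prod_const, ← prod_mul_distrib]
    exact prod_le_prod' fun p hp => (hS p hp).2.2.le
  have h5 : (H ^ S.card) * (H ^ S.card) ≤ (A ^ 2 * H ^ (2 * D)) * H ^ S.card := by
    calc (H ^ S.card) * (H ^ S.card) ≤ (A * H ^ D * Q ^ S.card) * (A * H ^ D * Q ^ S.card) := by
          have h6 : H ^ S.card ≤ A * H ^ D * Q ^ S.card :=
            h4.trans (Nat.mul_le_mul_right _ h3)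
          exact Nat.mul_le_mul h6 h6
      _ = (A ^ 2 * H ^ (2 * D)) * (Q ^ 2) ^ S.card := by ring
      _ ≤ _ := by gcongr
  have h6 : H ^ S.card ≤ A ^ 2 * H ^ (2 * D) :=
    Nat.le_of_mul_le_mul_right h5 (by positivity)
  have h7 : H ^ S.card < H ^ (2 * D + 1) := by
    calc H ^ S.card ≤ A ^ 2 * H ^ (2 * D) := h6
      _ < H * H ^ (2 * D) := Nat.mul_lt_mul_of_pos_right hA (by positivity)
      _ = H ^ (2 * D + 1) := by ring
  have h8 := (Nat.pow_lt_pow_iff_right (by omega)).1 h7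
  omega

end count

/-- the polynomial in `c` -/
noncomputable def fb {ι : Type} (g : Polynomial (MvPolynomial ι ℤ)) (b : ι → ℤ) : Polynomial ℤ :=
  g.map (eval₂Hom (Int.castRingHom ℤ) b)

lemma fb_monic {ι : Type} {g : Polynomial (MvPolynomial ι ℤ)} (hg : g.Monic) (b : ι → ℤ) :
    (fb g b).Monic := hg.map _

lemma fb_deg {ι : Type} {g : Polynomial (MvPolynomial ι ℤ)} (hg : g.Monic) (b : ι → ℤ) :
    (fb g b).natDegree = g.natDegree := hg.natDegree_map _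

open Classical in
lemma zero_card {ι : Type} {g : Polynomial (MvPolynomial ι ℤ)} (hg : g.Monic) (b : ι → ℤ)
    {δ : ℕ} (hδ : 1 ≤ δ) (C : Finset ℤ) :
    (C.filter fun c => ev g b ((δ : ℤ) * c) = 0).card ≤ g.natDegree := by
  rw [← fb_deg hg b]
  refine le_trans ?_ ((Multiset.toFinset_card_le _).trans (Polynomial.card_roots' (fb g b)))
  refine card_le_card_of_injOn (fun c => (δ : ℤ) * c) ?_ ?_
  · intro c hc
    rw [mem_coe, mem_filter] at hc
    rw [mem_coe, Multiset.mem_toFinset, Polynomial.mem_roots (fb_monic hg b).ne_zero]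
    exact hc.2
  · intro c _ c' _ h
    have h0 : (δ : ℤ) ≠ 0 := by exact_mod_cast (by omega : δ ≠ 0)
    exact mul_left_cancel₀ h0 h

open Classical in
theorem t_EK : S_EKA → S_EKB → S_EK := by
  intro hA hB ι _ g hg δ hδ Δ hΔ
  obtain ⟨C, hC, P₁, hA⟩ := hA ι Δ hΔ
  set r := g.natDegree with hr
  set I := Fintype.card ι with hI
  refine ⟨3 * C * r + 3, by positivity, max (max P₁ δ) 1, ?_⟩
  intro P hP Q hQ hPQ b₀ c₀
  have hPP₁ : P₁ ≤ P := (le_max_left _ _).trans ((le_max_left _ _).trans hP)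
  have hPδ : δ ≤ P := (le_max_right _ _).trans ((le_max_left _ _).trans hP)
  have hP1 : 1 ≤ P := (le_max_right _ _).trans hP
  have hP0 : (0 : ℝ) < P := by exact_mod_cast hP1
  have hQ0 : (0 : ℝ) < Q := by exact_mod_cast hQ
  obtain ⟨p₁, hp₁, hp₁p⟩ := Nat.exists_infinite_primes (max (P + 1) ⌈4 * C * P⌉₊)
  have hp₁P : P < p₁ := by
    have := (le_max_left _ _).trans hp₁
    omega
  have hp₁C : 4 * C * P ≤ p₁ := by
    have h1 : (⌈4 * C * (P : ℝ)⌉₊ : ℝ) ≤ p₁ := by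
      exact_mod_cast (le_max_right _ _).trans hp₁
    exact (Nat.le_ceil _).trans h1
  set D := Δ.totalDegree with hD
  set A := (∑ m ∈ Δ.support, (coeff m Δ).natAbs) * 2 ^ D with hAdef
  refine ⟨Q + Q ^ 2 + A ^ 2 + 2 + p₁ * Q + Q * (6 ^ I * ((6 * D + 1) * r) * P), fun H hH => ?_⟩
  have hHQ : Q ≤ H := by
    have : 0 ≤ Q * (6 ^ I * ((6 * D + 1) * r) * P) := Nat.zero_le _
    nlinarith [Nat.zero_le (Q ^ 2), Nat.zero_le (A ^ 2), Nat.zero_le (p₁ * Q)]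
  have hHQ2 : Q ^ 2 ≤ H := by
    nlinarith [Nat.zero_le (Q * (6 ^ I * ((6 * D + 1) * r) * P)), Nat.zero_le (A ^ 2),
      Nat.zero_le (p₁ * Q)]
  have hHA : A ^ 2 < H := by
    nlinarith [Nat.zero_le (Q * (6 ^ I * ((6 * D + 1) * r) * P)), Nat.zero_le (Q ^ 2),
      Nat.zero_le (p₁ * Q)]
  have hH2 : 2 ≤ H := by
    nlinarith [Nat.zero_le (Q * (6 ^ I * ((6 * D + 1) * r) * P)), Nat.zero_le (Q ^ 2),
      Nat.zero_le (p₁ * Q), Nat.zero_le (A ^ 2)]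
  have hHp : p₁ * Q ≤ H := by
    nlinarith [Nat.zero_le (Q * (6 ^ I * ((6 * D + 1) * r) * P)), Nat.zero_le (Q ^ 2),
      Nat.zero_le (A ^ 2)]
  have hHX : Q * (6 ^ I * ((6 * D + 1) * r) * P) ≤ H := by
    nlinarith [Nat.zero_le (Q ^ 2), Nat.zero_le (p₁ * Q), Nat.zero_le (A ^ 2)]
  set X : ℝ := (H : ℝ) / Q with hX
  have hX1 : 1 ≤ X := by
    rw [hX, one_le_div hQ0]
    exact_mod_cast hHQ
  have hX0 : 0 < X := by linarith
  have hXb : 6 ^ I * ((6 * D + 1) * r) * P ≤ X := by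
    rw [hX, le_div_iff₀ hQ0, mul_comm]
    exact_mod_cast hHX
  -- the box
  set B := Bx Q (2 * H) b₀ with hBdef
  set Cc := Cl Q H c₀ with hCc
  have hBcard : (B.card : ℝ) ≤ (6 * X) ^ I := by
    refine (card_Bx hQ _ _).trans (pow_le_pow_left₀ (by positivity) ?_ _)
    have : 2 * ((2 * H : ℕ) : ℝ) / Q + 2 = 4 * X + 2 := by
      rw [hX]
      push_cast
      ring
    rw [this]
    linarith
  have hCcard : (Cc.card : ℝ) ≤ 4 * X := by
    refine (card_Cl hQ _ _).trans ?_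
    have : 2 * (H : ℝ) / Q + 2 = 2 * X + 2 := by
      rw [hX]
      ring
    rw [this]
    linarith
  have hmemB : ∀ b : ι → ℤ, b ∈ B ↔ ∀ i, |b i| ≤ 2 * H ∧ (Q : ℤ) ∣ b i - b₀ i := by
    intro b
    rw [hBdef, mem_Bx]
    push_cast
    rfl
  have hmemC : ∀ c : ℤ, c ∈ Cc ↔ |c| ≤ H ∧ (Q : ℤ) ∣ c - c₀ := fun c => mem_Cl
  -- bound for one prime
  have hone : ∀ p : ℕ, p.Prime → P < p → ∀ b : ι → ℤ,
      ((Cc.filter fun c => (p : ℤ) ∣ ev g b ((δ : ℤ) * c)).card : ℝ) ≤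
        r * (2 * (H : ℝ) / (p * Q) + 1) := by
    intro p hp hPp b
    have hpδ : ¬ p ∣ δ := fun h => by
      have := Nat.le_of_dvd (by omega) h
      omega
    have h1 := hB Q p hQ hp (hPQ p hp hPp) δ hpδ c₀ H (fb g b) (fb_monic hg b)
    rw [fb_deg hg b] at h1
    refine le_trans (le_of_eq ?_) h1
    rw [← Set.ncard_coe_finset]
    congr 2
    ext c
    rw [mem_coe, mem_filter, hmemC, Set.mem_ofPred_eq, and_assoc]
    rfl
  -- the set
  set Z : Finset ((ι → ℤ) × ℤ) := (B ×ˢ Cc).filter fun z => ev g z.1 (δ * z.2) = 0 ∨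
    eval z.1 Δ = 0 ∨ ∃ p : ℕ, p.Prime ∧ P < p ∧ (p : ℤ) ∣ ev g z.1 (δ * z.2) ∧
      (p : ℤ) ∣ eval z.1 Δ with hZ
  have hset : {z : (ι → ℤ) × ℤ | (∀ i, |z.1 i| ≤ 2 * H ∧ (Q : ℤ) ∣ z.1 i - b₀ i) ∧ |z.2| ≤ H ∧
      (Q : ℤ) ∣ z.2 - c₀ ∧ (ev g z.1 (δ * z.2) = 0 ∨ eval z.1 Δ = 0 ∨
        ∃ p : ℕ, p.Prime ∧ P < p ∧ (p : ℤ) ∣ ev g z.1 (δ * z.2) ∧
          (p : ℤ) ∣ eval z.1 Δ)} = (Z : Set ((ι → ℤ) × ℤ)) := by
    ext z
    rw [hZ, Set.mem_ofPred_eq, mem_coe, mem_filter, mem_product, hmemB, hmemC]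
    constructor
    · rintro ⟨h1, h2, h3, h4⟩
      exact ⟨⟨h1, h2, h3⟩, h4⟩
    · rintro ⟨⟨h1, h2, h3⟩, h4⟩
      exact ⟨h1, h2, h3, h4⟩
  rw [hset, Set.ncard_coe_finset]
  -- the four parts
  set Z₁ : Finset ((ι → ℤ) × ℤ) := (Ioc P (H / Q)).biUnion fun p : ℕ =>
    Z.filter fun z : (ι → ℤ) × ℤ => p.Prime ∧
    (p : ℤ) ∣ ev g z.1 ((δ : ℤ) * z.2) ∧ (p : ℤ) ∣ eval z.1 Δ with hZ₁
  set Z₂ : Finset ((ι → ℤ) × ℤ) := Z.filter fun z : (ι → ℤ) × ℤ => eval z.1 Δ ≠ 0 ∧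
    ∃ p : ℕ, p.Prime ∧ P < p ∧ H < p * Q ∧
    (p : ℤ) ∣ ev g z.1 ((δ : ℤ) * z.2) ∧ (p : ℤ) ∣ eval z.1 Δ with hZ₂
  set Z₃ : Finset ((ι → ℤ) × ℤ) :=
    Z.filter fun z : (ι → ℤ) × ℤ => ev g z.1 ((δ : ℤ) * z.2) = 0 with hZ₃
  set Z₄ : Finset ((ι → ℤ) × ℤ) := Z.filter fun z : (ι → ℤ) × ℤ => eval z.1 Δ = 0 with hZ₄
  have hsub : Z ⊆ Z₁ ∪ Z₂ ∪ Z₃ ∪ Z₄ := by
    intro z hz
    have hz' := hz
    rw [hZ, mem_filter] at hz'
    obtain ⟨-, h | h | ⟨p, hp, hPp, h1, h2⟩⟩ := hz'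
    · exact mem_union_left _ (mem_union_right _ (mem_filter.2 ⟨hz, h⟩))
    · exact mem_union_right _ (mem_filter.2 ⟨hz, h⟩)
    · by_cases h0 : eval z.1 Δ = 0
      · exact mem_union_right _ (mem_filter.2 ⟨hz, h0⟩)
      · by_cases hpH : p * Q ≤ H
        · refine mem_union_left _ (mem_union_left _ (mem_union_left _ ?_))
          rw [hZ₁, mem_biUnion]
          exact ⟨p, mem_Ioc.2 ⟨hPp, (Nat.le_div_iff_mul_le (by omega)).2 hpH⟩,
            mem_filter.2 ⟨hz, hp, h1, h2⟩⟩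
        · exact mem_union_left _ (mem_union_left _ (mem_union_right _
            (mem_filter.2 ⟨hz, h0, p, hp, hPp, not_le.1 hpH, h1, h2⟩)))
  have hzB : ∀ z ∈ Z, z.1 ∈ B ∧ z.2 ∈ Cc := fun z hz => by
    rw [hZ, mem_filter, mem_product] at hz
    exact hz.1
  -- part 1
  have hN₁ : (Z₁.card : ℝ) ≤ 3 * C * r / P * X ^ (I + 1) := by
    have h1 : ∀ p ∈ Ioc P (H / Q), ((Z.filter fun z : (ι → ℤ) × ℤ => p.Prime ∧
        (p : ℤ) ∣ ev g z.1 ((δ : ℤ) * z.2) ∧ (p : ℤ) ∣ eval z.1 Δ).card : ℝ) ≤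
        3 * C * r * X ^ (I + 1) * ((p : ℝ) ^ 2)⁻¹ := by
      intro p hp
      rw [mem_Ioc] at hp
      have hp0 : (0 : ℝ) < p := by exact_mod_cast (by omega : 0 < p)
      by_cases hpp : p.Prime
      · have hpQ : p * Q ≤ H := (Nat.le_div_iff_mul_le (by omega)).1 hp.2
        have h2 := hA Q hQ p hpp (by omega) (hPQ p hpp hp.1) b₀ H hpQ
        have h3 : ((B.filter fun b => (p : ℤ) ∣ eval b Δ).card : ℝ) ≤ C / p * X ^ I := by
          refine le_trans (le_of_eq ?_) h2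
          rw [← Set.ncard_coe_finset]
          congr 2
          ext b
          rw [mem_coe, mem_filter, hmemB, Set.mem_ofPred_eq]
        have h4 : (1 : ℝ) ≤ X / p := by
          rw [hX, div_div, one_le_div (by positivity), mul_comm]
          exact_mod_cast hpQ
        have h5 : r * (2 * (H : ℝ) / (p * Q) + 1) ≤ r * (3 * (X / p)) := by
          have e1 : 2 * (H : ℝ) / (p * Q) = 2 * (X / p) := by
            rw [hX]
            field_simp
          rw [e1]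
          gcongr
          linarith
        refine (cnt (B.filter fun b => (p : ℤ) ∣ eval b Δ)
          (fun b => Cc.filter fun c => (p : ℤ) ∣ ev g b ((δ : ℤ) * c)) _ ?_ _
          (fun b _ => (hone p hpp hp.1 b).trans h5)).trans ?_
        · intro z hz
          rw [mem_filter] at hz
          obtain ⟨h6, h7⟩ := hzB z hz.1
          exact ⟨mem_filter.2 ⟨h6, hz.2.2.2⟩, mem_filter.2 ⟨h7, hz.2.2.1⟩⟩
        · calc ((B.filter fun b => (p : ℤ) ∣ eval b Δ).card : ℝ) * (r * (3 * (X / p)))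
              ≤ (C / p * X ^ I) * (r * (3 * (X / p))) := by gcongr
            _ = _ := by
              rw [pow_succ]
              field_simp
      · have h2 : (Z.filter fun z : (ι → ℤ) × ℤ => p.Prime ∧
            (p : ℤ) ∣ ev g z.1 ((δ : ℤ) * z.2) ∧ (p : ℤ) ∣ eval z.1 Δ) = ∅ := by
          rw [filter_eq_empty_iff]
          exact fun z _ h => hpp h.1
        rw [h2, card_empty, Nat.cast_zero]
        positivity
    calc (Z₁.card : ℝ) ≤ ((∑ p ∈ Ioc P (H / Q), (Z.filter fun z : (ι → ℤ) × ℤ => p.Prime ∧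
          (p : ℤ) ∣ ev g z.1 ((δ : ℤ) * z.2) ∧ (p : ℤ) ∣ eval z.1 Δ).card : ℕ) : ℝ) := by
          exact_mod_cast card_biUnion_le
      _ ≤ ∑ p ∈ Ioc P (H / Q), 3 * C * r * X ^ (I + 1) * ((p : ℝ) ^ 2)⁻¹ := by
          push_cast
          exact sum_le_sum h1
      _ = 3 * C * r * X ^ (I + 1) * ∑ p ∈ Ioc P (H / Q), ((p : ℝ) ^ 2)⁻¹ := by rw [mul_sum]
      _ ≤ 3 * C * r * X ^ (I + 1) * (P : ℝ)⁻¹ := by
          gcongr
          rcases le_total P (H / Q) with h | h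
          · refine (sum_Ioc_inv_sq_le_sub (by omega) h).trans ?_
            have : (0 : ℝ) ≤ ((H / Q : ℕ) : ℝ)⁻¹ := by positivity
            linarith
          · rw [Ioc_eq_empty (by omega), sum_empty]
            positivity
      _ = _ := by ring
  -- part 2
  have hsmall : ∀ t : ℝ, 0 ≤ t → t ≤ (6 * D + 1) * r → (6 * X) ^ I * t ≤ 1 / P * X ^ (I + 1) := by
    intro t ht0 ht
    have h1 : 6 ^ I * t * P ≤ X := by
      refine le_trans ?_ hXb
      gcongr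
    rw [mul_pow, pow_succ, one_div, ← div_eq_inv_mul, le_div_iff₀ hP0]
    calc 6 ^ I * X ^ I * t * P = X ^ I * (6 ^ I * t * P) := by ring
      _ ≤ X ^ I * X := by gcongr
  have hN₂ : (Z₂.card : ℝ) ≤ 1 / P * X ^ (I + 1) := by
    have h1 : ∀ b ∈ B.filter fun b => eval b Δ ≠ 0, ((Cc.filter fun c => ∃ p : ℕ, p.Prime ∧
        P < p ∧ H < p * Q ∧ (p : ℤ) ∣ ev g b ((δ : ℤ) * c) ∧ (p : ℤ) ∣ eval b Δ).card : ℝ) ≤
        (2 * D) * (r * 3) := by
      intro b hb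
      rw [mem_filter] at hb
      set S := (eval b Δ).natAbs.primeFactors.filter fun p => P < p ∧ H < p * Q with hS
      have h2 : S.card ≤ 2 * D := by
        refine few_primes (N := (eval b Δ).natAbs) (A := A) (Q := Q) (H := H)
          (Int.natAbs_ne_zero.2 hb.2) ?_ hHQ2 hHA hH2 S ?_
        · exact eval_bound Δ (by omega) fun i => ((hmemB b).1 hb.1 i).1
        · intro p hp
          rw [hS, mem_filter, Nat.mem_primeFactors] at hp
          exact ⟨hp.1.1, hp.1.2.1, hp.2.2⟩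
      have h3 : (Cc.filter fun c => ∃ p : ℕ, p.Prime ∧
          P < p ∧ H < p * Q ∧ (p : ℤ) ∣ ev g b ((δ : ℤ) * c) ∧ (p : ℤ) ∣ eval b Δ) ⊆
          S.biUnion fun p => Cc.filter fun c => (p : ℤ) ∣ ev g b ((δ : ℤ) * c) := by
        intro c hc
        rw [mem_filter] at hc
        obtain ⟨hc, p, hp, hPp, hHp, h4, h5⟩ := hc
        rw [mem_biUnion]
        refine ⟨p, ?_, mem_filter.2 ⟨hc, h4⟩⟩
        rw [hS, mem_filter, Nat.mem_primeFactors]
        exact ⟨⟨hp, Int.natCast_dvd.1 h5, Int.natAbs_ne_zero.2 hb.2⟩, hPp, hHp⟩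
      calc ((Cc.filter fun c => ∃ p : ℕ, p.Prime ∧
          P < p ∧ H < p * Q ∧ (p : ℤ) ∣ ev g b ((δ : ℤ) * c) ∧ (p : ℤ) ∣ eval b Δ).card : ℝ)
          ≤ ((S.biUnion fun p => Cc.filter fun c => (p : ℤ) ∣ ev g b ((δ : ℤ) * c)).card : ℝ) := by
            exact_mod_cast card_le_card h3
        _ ≤ ((∑ p ∈ S, (Cc.filter fun c => (p : ℤ) ∣ ev g b ((δ : ℤ) * c)).card : ℕ) : ℝ) := by
            exact_mod_cast card_biUnion_le
        _ ≤ ∑ _p ∈ S, (r : ℝ) * 3 := by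
            push_cast
            refine sum_le_sum fun p hp => ?_
            rw [hS, mem_filter, Nat.mem_primeFactors] at hp
            refine (hone p hp.1.1 hp.2.1 b).trans ?_
            have hp0 : (0 : ℝ) < p := by exact_mod_cast hp.1.1.pos
            have h4 : 2 * (H : ℝ) / (p * Q) ≤ 2 := by
              rw [div_le_iff₀ (by positivity)]
              have : (H : ℝ) < p * Q := by exact_mod_cast hp.2.2
              linarith
            gcongr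
            linarith
        _ = S.card * (r * 3) := by rw [sum_const, nsmul_eq_mul]
        _ ≤ (2 * D) * (r * 3) := by
            gcongr
            exact_mod_cast h2
    refine (cnt (B.filter fun b => eval b Δ ≠ 0) (fun b => Cc.filter fun c => ∃ p : ℕ, p.Prime ∧
        P < p ∧ H < p * Q ∧ (p : ℤ) ∣ ev g b ((δ : ℤ) * c) ∧ (p : ℤ) ∣ eval b Δ) _ ?_ _ h1).trans ?_
    · intro z hz
      rw [hZ₂, mem_filter] at hz
      obtain ⟨h6, h7⟩ := hzB z hz.1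
      exact ⟨mem_filter.2 ⟨h6, hz.2.1⟩, mem_filter.2 ⟨h7, hz.2.2⟩⟩
    · calc ((B.filter fun b => eval b Δ ≠ 0).card : ℝ) * ((2 * D) * (r * 3))
          ≤ (6 * X) ^ I * ((2 * D) * (r * 3)) := by
            gcongr
            exact le_trans (by exact_mod_cast card_filter_le _ _) hBcard
        _ ≤ _ := by
            refine hsmall _ (by positivity) ?_
            have : (0 : ℝ) ≤ r := by positivity
            nlinarith
  -- part 3
  have hN₃ : (Z₃.card : ℝ) ≤ 1 / P * X ^ (I + 1) := by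
    refine (cnt B (fun b => Cc.filter fun c => ev g b ((δ : ℤ) * c) = 0) _ ?_ (r : ℝ)
      (fun b _ => by exact_mod_cast zero_card hg b hδ Cc)).trans ?_
    · intro z hz
      rw [hZ₃, mem_filter] at hz
      obtain ⟨h6, h7⟩ := hzB z hz.1
      exact ⟨h6, mem_filter.2 ⟨h7, hz.2⟩⟩
    · calc (B.card : ℝ) * r ≤ (6 * X) ^ I * r := by gcongr
        _ ≤ _ := by
            refine hsmall _ (by positivity) ?_
            have h1 : (0 : ℝ) ≤ r := by positivity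
            have h2 : (0 : ℝ) ≤ D := by positivity
            nlinarith [mul_nonneg h1 h2]
  -- part 4
  have hN₄ : (Z₄.card : ℝ) ≤ 1 / P * X ^ (I + 1) := by
    have h2 := hA Q hQ p₁ hp₁p (by omega) (hPQ p₁ hp₁p hp₁P) b₀ H hHp
    have hp0 : (0 : ℝ) < p₁ := by exact_mod_cast hp₁p.pos
    have h3 : ((B.filter fun b => (p₁ : ℤ) ∣ eval b Δ).card : ℝ) ≤ C / p₁ * X ^ I := by
      refine le_trans (le_of_eq ?_) h2
      rw [← Set.ncard_coe_finset]
      congr 2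
      ext b
      rw [mem_coe, mem_filter, hmemB, Set.mem_ofPred_eq]
    refine (cnt (B.filter fun b => (p₁ : ℤ) ∣ eval b Δ) (fun _ => Cc) _ ?_ (4 * X)
      (fun b _ => hCcard)).trans ?_
    · intro z hz
      rw [hZ₄, mem_filter] at hz
      obtain ⟨h6, h7⟩ := hzB z hz.1
      exact ⟨mem_filter.2 ⟨h6, by rw [hz.2]; exact dvd_zero _⟩, h7⟩
    · calc ((B.filter fun b => (p₁ : ℤ) ∣ eval b Δ).card : ℝ) * (4 * X)
          ≤ (C / p₁ * X ^ I) * (4 * X) := by gcongr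
        _ = (4 * C / p₁) * X ^ (I + 1) := by ring
        _ ≤ 1 / P * X ^ (I + 1) := by
            gcongr ?_ * _
            rw [div_le_div_iff₀ hp0 hP0]
            linarith
  -- the sum
  have hcard : (Z.card : ℝ) ≤ Z₁.card + Z₂.card + Z₃.card + Z₄.card := by
    have h1 := card_le_card hsub
    have h2 := card_union_le (Z₁ ∪ Z₂ ∪ Z₃) Z₄
    have h3 := card_union_le (Z₁ ∪ Z₂) Z₃
    have h4 := card_union_le Z₁ Z₂
    exact_mod_cast (by omega : Z.card ≤ Z₁.card + Z₂.card + Z₃.card + Z₄.card)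
  have e1 : (3 * C * r + 3) / P * X ^ (I + 1) = 3 * C * r / P * X ^ (I + 1) +
      1 / P * X ^ (I + 1) + 1 / P * X ^ (I + 1) + 1 / P * X ^ (I + 1) := by ring
  rw [e1]
  linarith

end Pool.Agent.K3h33.ND
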