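import Pool.Agent.Helper774.FinDil

/-!
# Normal matrices are unitarily similar to diagonal ones; numerical ranges of diagonal matrices
-/

set_option autoImplicit false

open Matrix Pool.Agent.Helper774

namespace Pool.Agent.K3h33.ND

/-- Two commuting Hermitian matrices have a common orthonormal basis of eigenvectors. -/
lemma joint_basis {n : ℕ} (B C : Matrix (Fin n) (Fin n) ℂ) (hB : B.IsHermitian)
    (hC : C.IsHermitian) (hBC : B * C = C * B) :
    ∃ (b : OrthonormalBasis (Fin n) ℂ (EuclideanSpace ℂ (Fin n))) (β γ : Fin n → ℂ),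
      (∀ a, B.toEuclideanLin (b a) = β a • b a) ∧ ∀ a, C.toEuclideanLin (b a) = γ a • b a := by
  classical
  have hB' := isSymmetric_toEuclideanLin_iff.mpr hB
  have hC' := isSymmetric_toEuclideanLin_iff.mpr hC
  have hcomm : Commute B.toEuclideanLin C.toEuclideanLin := by
    have h1 : ∀ M N : Matrix (Fin n) (Fin n) ℂ,
        (M * N).toEuclideanLin = M.toEuclideanLin * N.toEuclideanLin := by
      intro M N
      ext x i
      simp [Matrix.toLpLin_apply, Matrix.mulVec_mulVec]
    rw [Commute, SemiconjBy, ← h1, ← h1, hBC]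
  have hint := LinearMap.IsSymmetric.directSum_isInternal_of_commute hB' hC' hcomm
  have hort := LinearMap.IsSymmetric.orthogonalFamily_eigenspace_inf_eigenspace hB' hC'
  have hfin := WellFoundedGT.finite_ne_bot_of_iSupIndep hint.submodule_iSupIndep
  have : Fintype {i : ℂ × ℂ // Module.End.eigenspace B.toEuclideanLin i.2 ⊓
      Module.End.eigenspace C.toEuclideanLin i.1 ≠ ⊥} := hfin.fintype
  have hint' := DirectSum.isInternal_ne_bot_iff.2 hint
  have hort' := hort.comp (Subtype.coe_injective (p := fun i : ℂ × ℂ =>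
    Module.End.eigenspace B.toEuclideanLin i.2 ⊓ Module.End.eigenspace C.toEuclideanLin i.1 ≠ ⊥))
  have hn : Module.finrank ℂ (EuclideanSpace ℂ (Fin n)) = n := finrank_euclideanSpace_fin
  have hsub := fun a => hint'.subordinateOrthonormalBasis_subordinate hn a hort'
  exact ⟨hint'.subordinateOrthonormalBasis hn hort', fun a =>
    (hint'.subordinateOrthonormalBasisIndex hn a hort').1.2, fun a =>
    (hint'.subordinateOrthonormalBasisIndex hn a hort').1.1,
    fun a => Module.End.mem_eigenspace_iff.1 (hsub a).1,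
    fun a => Module.End.mem_eigenspace_iff.1 (hsub a).2⟩

/-- Normal matrices are unitarily similar to diagonal ones. -/
theorem normal_diag {n : ℕ} (A : Matrix (Fin n) (Fin n) ℂ) (hA : A * Aᴴ = Aᴴ * A) :
    ∃ (U : Matrix (Fin n) (Fin n) ℂ) (lam : Fin n → ℂ), Uᴴ * U = 1 ∧ U * Uᴴ = 1 ∧
      Uᴴ * A * U = diagonal lam := by
  set B : Matrix (Fin n) (Fin n) ℂ := A + Aᴴ with hB
  set C : Matrix (Fin n) (Fin n) ℂ := Complex.I • (A - Aᴴ) with hC
  have hBh : B.IsHermitian := by
    rw [Matrix.IsHermitian, hB, conjTranspose_add, conjTranspose_conjTranspose, add_comm]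
  have hCh : C.IsHermitian := by
    rw [Matrix.IsHermitian, hC, conjTranspose_smul, conjTranspose_sub, conjTranspose_conjTranspose]
    have h1 : star Complex.I = -Complex.I := Complex.conj_I
    rw [h1, neg_smul, ← smul_neg, neg_sub]
  have hBC : B * C = C * B := by
    rw [hB, hC, Matrix.mul_smul, Matrix.smul_mul]
    congr 1
    rw [add_mul, mul_sub, mul_sub, sub_mul, mul_add, mul_add, hA]
    abel
  obtain ⟨b, β, γ, h1, h2⟩ := joint_basis B C hBh hCh hBC
  have hAB : ∀ x : EuclideanSpace ℂ (Fin n), (2 : ℂ) • A.toEuclideanLin x =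
      B.toEuclideanLin x - Complex.I • C.toEuclideanLin x := by
    intro x
    have h3 : (2 : ℂ) • A = B - Complex.I • C := by
      rw [hB, hC, smul_smul, Complex.I_mul_I, neg_one_smul, two_smul]
      abel
    rw [← LinearMap.smul_apply, ← LinearMap.smul_apply, ← LinearMap.sub_apply, ← map_smul,
      ← map_smul, ← map_sub, h3]
  set lam : Fin n → ℂ := fun a => (β a - Complex.I * γ a) / 2 with hlam
  have hAb : ∀ a, A.toEuclideanLin (b a) = lam a • b a := by
    intro a
    have h3 := hAB (b a)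
    rw [h1, h2, smul_smul, ← sub_smul] at h3
    have h4 := congrArg (fun z => (2⁻¹ : ℂ) • z) h3
    simp only [smul_smul] at h4
    rw [inv_mul_cancel₀ (two_ne_zero : (2 : ℂ) ≠ 0), one_smul] at h4
    rw [h4, hlam]
    congr 1
    ring
  set U : Matrix (Fin n) (Fin n) ℂ := Matrix.of fun i a => b a i with hU
  have hUU : Uᴴ * U = 1 := by
    ext a a'
    have h3 := orthonormal_iff_ite.1 b.orthonormal a a'
    rw [Matrix.mul_apply, Matrix.one_apply, ← h3]
    simp only [hU, conjTranspose_apply, Matrix.of_apply, PiLp.inner_apply]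
    refine Finset.sum_congr rfl fun i _ => ?_
    simp [mul_comm]
  have hAU : A * U = U * diagonal lam := by
    ext i a
    have h3 : (A.toEuclideanLin (b a)) i = (lam a • b a) i := by rw [hAb]
    rw [Matrix.mul_diagonal, Matrix.mul_apply]
    have h4 : (A.toEuclideanLin (b a)) i = ∑ j, A i j * b a j := by
      simp [Matrix.toLpLin_apply, Matrix.mulVec, dotProduct]
    rw [h4] at h3
    simp only [hU, Matrix.of_apply]
    rw [h3, PiLp.smul_apply, smul_eq_mul, mul_comm]
  refine ⟨U, lam, hUU, mul_eq_one_comm.1 hUU, ?_⟩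
  rw [Matrix.mul_assoc, hAU, ← Matrix.mul_assoc, hUU, Matrix.one_mul]

/-- The numerical range of a diagonal matrix. -/
theorem MW_diag {n : ℕ} (lam : Fin n → ℂ) :
    MW (diagonal lam) = convexHull ℝ (Set.range lam) := by
  have hval : ∀ x : Fin n → ℂ, star x ⬝ᵥ (diagonal lam *ᵥ x) = ∑ i, (‖x i‖ ^ 2 : ℝ) • lam i := by
    intro x
    simp only [dotProduct, Matrix.mulVec_diagonal, Pi.star_apply]
    refine Finset.sum_congr rfl fun i _ => ?_
    rw [Complex.real_smul, ← Complex.normSq_eq_norm_sq, Complex.normSq_eq_conj_mul_self]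
    change (starRingEnd ℂ) (x i) * (lam i * x i) = _
    ring
  have hnorm : ∀ x : Fin n → ℂ, star x ⬝ᵥ x = ((∑ i, ‖x i‖ ^ 2 : ℝ) : ℂ) := by
    intro x
    simp only [dotProduct, Pi.star_apply]
    push_cast
    refine Finset.sum_congr rfl fun i _ => ?_
    rw [← Complex.ofReal_pow, ← Complex.normSq_eq_norm_sq, Complex.normSq_eq_conj_mul_self]
    rfl
  apply Set.Subset.antisymm
  · rintro z ⟨x, hx, rfl⟩
    rw [hval]
    refine (convex_convexHull ℝ (Set.range lam)).sum_mem (fun i _ => sq_nonneg _) ?_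
      (fun i _ => subset_convexHull ℝ _ ⟨i, rfl⟩)
    rw [hnorm] at hx
    exact_mod_cast hx
  · have hmem : ∀ w : Fin n → ℝ, (∀ i, 0 ≤ w i) → ∑ i, w i = 1 →
        ∑ i, w i • lam i ∈ MW (diagonal lam) := by
      intro w hw hsum
      have hsq : ∀ i, ‖((Real.sqrt (w i) : ℝ) : ℂ)‖ ^ 2 = w i := by
        intro i
        rw [Complex.norm_real, Real.norm_eq_abs, sq_abs, Real.sq_sqrt (hw i)]
      refine ⟨fun i => ((Real.sqrt (w i) : ℝ) : ℂ), ?_, ?_⟩
      · rw [hnorm]
        simp only [hsq, hsum, Complex.ofReal_one]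
      · rw [hval]
        simp only [hsq]
    have hconv : Convex ℝ {z : ℂ | ∃ w : Fin n → ℝ, (∀ i, 0 ≤ w i) ∧ ∑ i, w i = 1 ∧
        ∑ i, w i • lam i = z} := by
      rintro _ ⟨w, hw, hw1, rfl⟩ _ ⟨w', hw', hw1', rfl⟩ a b ha hb hab
      refine ⟨fun i => a * w i + b * w' i, fun i => ?_, ?_, ?_⟩
      · exact add_nonneg (mul_nonneg ha (hw i)) (mul_nonneg hb (hw' i))
      · rw [Finset.sum_add_distrib, ← Finset.mul_sum, ← Finset.mul_sum, hw1, hw1', mul_one,
          mul_one, hab]
      · rw [Finset.smul_sum, Finset.smul_sum, ← Finset.sum_add_distrib]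
        refine Finset.sum_congr rfl fun i _ => ?_
        rw [add_smul, mul_smul, mul_smul]
    have hsub : Set.range lam ⊆ {z : ℂ | ∃ w : Fin n → ℝ, (∀ i, 0 ≤ w i) ∧ ∑ i, w i = 1 ∧
        ∑ i, w i • lam i = z} := by
      rintro _ ⟨j, rfl⟩
      refine ⟨fun i => if i = j then 1 else 0, fun i => ?_, ?_, ?_⟩
      · beta_reduce
        split_ifs <;> norm_num
      · simp
      · simp
    intro z hz
    obtain ⟨w, hw, hw1, rfl⟩ := convexHull_min hsub hconv hz
    exact hmem w hw hw1

end Pool.Agent.K3h33.ND
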