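import Pool.Agent.K3h25.ND.P
import Pool.Agent.K3h33.ND.NM

/-!
# Property (D) of the matrices whose numerical range is a triangle, a segment or a point
-/

set_option autoImplicit false

open Matrix Pool.Agent.Helper774
open scoped ComplexOrder

namespace Pool.Agent.K3h33.ND

lemma half_convex (w p : ℂ) : Convex ℝ {z : ℂ | 0 ≤ (w * (z - p)).re} := by
  intro z hz z' hz' α β hα hβ hαβ
  rw [Set.mem_ofPred_eq] at hz hz' ⊢
  have h1 : w * (α • z + β • z' - p) = α • (w * (z - p)) + β • (w * (z' - p)) := by
    simp only [Complex.real_smul]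
    have h2 : (α : ℂ) + β = 1 := by exact_mod_cast hαβ
    linear_combination (w * p) * h2
  rw [h1, Complex.add_re, Complex.real_smul, Complex.real_smul, Complex.re_ofReal_mul,
    Complex.re_ofReal_mul]
  exact add_nonneg (mul_nonneg hα hz) (mul_nonneg hβ hz')

/-- A corner of the numerical range is a normal eigenvalue. -/
lemma corner {n : ℕ} (A : Matrix (Fin n) (Fin n) ℂ) (s : Set ℂ) (hs : MW A ⊆ convexHull ℝ s)
    (p w1 w2 : ℂ) (h1 : ∀ z ∈ s, 0 ≤ (w1 * (z - p)).re) (h2 : ∀ z ∈ s, 0 ≤ (w2 * (z - p)).re)
    (hw : (star w1 * w2).im ≠ 0) (x : Fin n → ℂ) (hx : star x ⬝ᵥ x = 1)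
    (hxp : star x ⬝ᵥ (A *ᵥ x) = p) : A *ᵥ x = p • x ∧ Aᴴ *ᵥ x = star p • x := by
  have key : ∀ w : ℂ, (∀ z ∈ s, 0 ≤ (w * (z - p)).re) →
      w • (A *ᵥ x - p • x) + star w • (Aᴴ *ᵥ x - star p • x) = 0 := by
    intro w hwz
    have hz : ∀ z ∈ MW A, 0 ≤ (w * (z - p)).re := fun z hz =>
      convexHull_min hwz (half_convex w p) (hs hz)
    set M : Matrix (Fin n) (Fin n) ℂ := w • (A - p • 1) + star w • (A - p • 1)ᴴ with hM
    have hquad : ∀ y : Fin n → ℂ, star y ⬝ᵥ (M *ᵥ y) =
        ((2 * (w * (star y ⬝ᵥ ((A - p • 1) *ᵥ y))).re : ℝ) : ℂ) := by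
      intro y
      have e1 : star y ⬝ᵥ ((A - p • 1)ᴴ *ᵥ y) = star (star y ⬝ᵥ ((A - p • 1) *ᵥ y)) := by
        rw [Matrix.dotProduct_mulVec, ← Matrix.star_mulVec, Matrix.star_dotProduct]
      rw [hM, Matrix.add_mulVec, Matrix.smul_mulVec, Matrix.smul_mulVec, dotProduct_add,
        dotProduct_smul, dotProduct_smul, e1, smul_eq_mul, smul_eq_mul, ← star_mul']
      exact Complex.add_conj _
    have hAp : ∀ y : Fin n → ℂ, star y ⬝ᵥ ((A - p • 1) *ᵥ y) =
        star y ⬝ᵥ (A *ᵥ y) - p * (star y ⬝ᵥ y) := by
      intro y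
      rw [Matrix.sub_mulVec, Matrix.smul_mulVec, Matrix.one_mulVec, dotProduct_sub,
        dotProduct_smul, smul_eq_mul]
    have hherm : M.IsHermitian := by
      rw [Matrix.IsHermitian, hM, conjTranspose_add, conjTranspose_smul, conjTranspose_smul,
        conjTranspose_conjTranspose, star_star, add_comm]
    have hpsd : M.PosSemidef := by
      refine Matrix.PosSemidef.of_dotProduct_mulVec_nonneg hherm fun y => ?_
      rw [hquad, Complex.zero_le_real]
      refine mul_nonneg zero_le_two ?_
      by_cases hy : y = 0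
      · subst hy
        simp
      · have h3 := hz _ (mem_MW_of_ne_zero A y hy)
        have hpos : 0 < ∑ i, ‖y i‖ ^ 2 := by
          obtain ⟨i, hi⟩ := Function.ne_iff.1 hy
          exact Finset.sum_pos' (fun _ _ => sq_nonneg _)
            ⟨i, Finset.mem_univ i, pow_pos (norm_pos_iff.2 hi) 2⟩
        set ρ : ℝ := ∑ i, ‖y i‖ ^ 2 with hρ
        have h4 : star y ⬝ᵥ y = (ρ : ℂ) := dot_self_eq y
        have h5 : w * (star y ⬝ᵥ ((A - p • 1) *ᵥ y)) =
            (ρ : ℂ) * (w * ((star y ⬝ᵥ (A *ᵥ y)) / (star y ⬝ᵥ y) - p)) := by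
          have h6 : (ρ : ℂ) ≠ 0 := by exact_mod_cast hpos.ne'
          rw [hAp, h4]
          field_simp
        rw [h5, Complex.re_ofReal_mul]
        exact mul_nonneg hpos.le h3
    have h7 : star x ⬝ᵥ (M *ᵥ x) = 0 := by
      rw [hquad, hAp, hxp, hx]
      simp
    have h8 := (hpsd.dotProduct_mulVec_zero_iff x).1 h7
    rw [hM, Matrix.add_mulVec, Matrix.smul_mulVec, Matrix.smul_mulVec, conjTranspose_sub,
      conjTranspose_smul, conjTranspose_one, Matrix.sub_mulVec, Matrix.sub_mulVec,
      Matrix.smul_mulVec, Matrix.smul_mulVec, Matrix.one_mulVec] at h8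
    exact h8
  have k1 := key w1 h1
  have k2 := key w2 h2
  set P := A *ᵥ x - p • x with hP
  set Q := Aᴴ *ᵥ x - star p • x with hQ
  have hdet : w1 * star w2 - w2 * star w1 ≠ 0 := by
    intro h0
    apply hw
    have h3 := congrArg Complex.im h0
    simp only [Complex.star_def, Complex.sub_im, Complex.mul_im, Complex.conj_re, Complex.conj_im,
      Complex.zero_im] at h3 ⊢
    linarith
  have hP0 : P = 0 := by
    have h3 : (w1 * star w2 - w2 * star w1) • P = 0 := by
      have h4 : (w1 * star w2 - w2 * star w1) • P =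
          star w2 • (w1 • P + star w1 • Q) - star w1 • (w2 • P + star w2 • Q) := by
        simp only [smul_add, smul_smul, sub_smul]
        rw [mul_comm w1, mul_comm w2, mul_comm (star w2) (star w1)]
        abel
      rw [h4, k1, k2, smul_zero, smul_zero, sub_zero]
    exact (smul_eq_zero.1 h3).resolve_left hdet
  have hQ0 : Q = 0 := by
    rw [hP0, smul_zero, zero_add] at k1
    refine (smul_eq_zero.1 k1).resolve_left fun h3 => hw ?_
    rw [h3, zero_mul, Complex.zero_im]
  exact ⟨sub_eq_zero.1 hP0, sub_eq_zero.1 hQ0⟩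

/-- Normal eigenvectors whose eigenvalues span the numerical range. -/
lemma assemble {n k : ℕ} (A : Matrix (Fin n) (Fin n) ℂ) (p : Fin k → ℂ)
    (hp : Function.Injective p) (x : Fin k → Fin n → ℂ) (hx : ∀ i, star (x i) ⬝ᵥ x i = 1)
    (h1 : ∀ i, A *ᵥ x i = p i • x i) (h2 : ∀ i, Aᴴ *ᵥ x i = star (p i) • x i) (a b c : Fin k)
    (hab : ∀ i, p i ∈ convexHull ℝ {p a, p b, p c}) (hA : MW A ⊆ convexHull ℝ (Set.range p)) :
    FinPropD A := by
  classical
  have horth : ∀ i j, i ≠ j → star (x j) ⬝ᵥ x i = 0 := by
    intro i j hij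
    have e1 : star (x j) ⬝ᵥ (A *ᵥ x i) = p i * (star (x j) ⬝ᵥ x i) := by
      rw [h1, dotProduct_smul, smul_eq_mul]
    have e2 : star (x j) ⬝ᵥ (A *ᵥ x i) = p j * (star (x j) ⬝ᵥ x i) := by
      have e3 : star (x j) ᵥ* A = p j • star (x j) := by
        have e4 : star (Aᴴ *ᵥ x j) = star (x j) ᵥ* A := by
          rw [Matrix.star_mulVec, conjTranspose_conjTranspose]
        rw [← e4, h2, star_smul, star_star]
      rw [Matrix.dotProduct_mulVec, e3, smul_dotProduct, smul_eq_mul]
    have e5 : (p i - p j) * (star (x j) ⬝ᵥ x i) = 0 := by rw [sub_mul, ← e1, e2, sub_self]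
    exact (mul_eq_zero.1 e5).resolve_left (sub_ne_zero.2 fun h => hij (hp h))
  set V : Matrix (Fin n) (Fin k) ℂ := Matrix.of fun i j => x j i with hV
  have hVV : Vᴴ * V = 1 := by
    ext j j'
    have e1 : (Vᴴ * V) j j' = star (x j) ⬝ᵥ x j' := rfl
    rw [e1, Matrix.one_apply]
    by_cases hj : j = j'
    · rw [if_pos hj, hj, hx]
    · rw [if_neg hj, horth j' j (Ne.symm hj)]
  have hAV : A * V = V * diagonal p := by
    ext i j
    have e1 : (A * V) i j = (A *ᵥ x j) i := rfl
    rw [e1, h1, Matrix.mul_diagonal, Pi.smul_apply, smul_eq_mul, mul_comm]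
    rfl
  have hVAV : Vᴴ * A * V = diagonal p := by
    rw [Matrix.mul_assoc, hAV, ← Matrix.mul_assoc, hVV, Matrix.one_mul]
  refine FinPropD.transfer V hVV ?_ ?_
  · rw [hVAV, MW_diag]
    exact hA
  · rw [hVAV]
    exact Pool.Agent.K3h25.ND.pos p a b c hab

/-- The numerical range is a segment or a point. -/
lemma seg_case {n : ℕ} (A : Matrix (Fin n) (Fin n) ℂ) (a c : ℂ) (ha : a ∈ MW A) (hc : c ∈ MW A)
    (h : MW A ⊆ convexHull ℝ {a, c}) : FinPropD A := by
  obtain ⟨xa, hxa, hxa'⟩ := ha
  obtain ⟨xc, hxc, hxc'⟩ := hc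
  by_cases hac : a = c
  · subst hac
    have hne : Nonempty (Fin n) := by
      by_contra hcon
      rw [not_nonempty_iff] at hcon
      have h0 : star xa ⬝ᵥ xa = 0 := by
        rw [dotProduct, Finset.univ_eq_empty, Finset.sum_empty]
      rw [h0] at hxa
      exact zero_ne_one hxa
    have hA : A = a • 1 := by
      apply eq_smul_one_of_MW
      intro z hz
      have h1 := h hz
      rw [Set.insert_eq_of_mem (Set.mem_singleton a), convexHull_singleton] at h1
      exact h1
    rw [hA]
    exact finPropD_scalar a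
  · have hne : c - a ≠ 0 := sub_ne_zero.2 (Ne.symm hac)
    have hns : 0 < Complex.normSq (c - a) := Complex.normSq_pos.2 hne
    have hconj : ∀ u : ℂ, star u * u = ((Complex.normSq u : ℝ) : ℂ) := fun u =>
      (Complex.normSq_eq_conj_mul_self).symm
    -- the corner at a point
    have hcor : ∀ (p q : ℂ), p ≠ q → MW A ⊆ convexHull ℝ {p, q} → ∀ x : Fin n → ℂ,
        star x ⬝ᵥ x = 1 → star x ⬝ᵥ (A *ᵥ x) = p → A *ᵥ x = p • x ∧ Aᴴ *ᵥ x = star p • x := by
      intro p q hpq hMW x hx hxp
      have hns' : 0 < Complex.normSq (q - p) := Complex.normSq_pos.2 (sub_ne_zero.2 hpq.symm)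
      refine corner A {p, q} hMW p (star (q - p)) (Complex.I * star (q - p)) ?_ ?_ ?_ x hx hxp
      · rintro z (rfl | rfl)
        · simp
        · rw [hconj, Complex.ofReal_re]
          exact Complex.normSq_nonneg _
      · rintro z (rfl | rfl)
        · simp
        · rw [mul_assoc, hconj, mul_comm, Complex.re_ofReal_mul, Complex.I_re, mul_zero]
      · have e1 : star (star (q - p)) * (Complex.I * star (q - p)) =
            ((Complex.normSq (q - p) : ℝ) : ℂ) * Complex.I := by
          rw [star_star, ← hconj]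
          ring
        rw [e1, Complex.im_ofReal_mul, Complex.I_im, mul_one]
        exact hns'.ne'
    have k1 := hcor a c hac h xa hxa hxa'
    have k2 := hcor c a (Ne.symm hac) (by rw [Set.pair_comm]; exact h) xc hxc hxc'
    refine assemble (k := 2) A ![a, c] ?_ ![xa, xc] ?_ ?_ ?_ 0 1 1 ?_ ?_
    · intro i j hij
      fin_cases i <;> fin_cases j
      · rfl
      · exact absurd hij hac
      · exact absurd hij (Ne.symm hac)
      · rfl
    · intro i
      fin_cases i
      · exact hxa
      · exact hxc
    · intro i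
      fin_cases i
      · exact k1.1
      · exact k2.1
    · intro i
      fin_cases i
      · exact k1.2
      · exact k2.2
    · intro i
      apply subset_convexHull
      fin_cases i
      · simp
      · simp
    · have e1 : Set.range ![a, c] = {a, c} := by
        ext z
        constructor
        · rintro ⟨i, rfl⟩
          fin_cases i <;> simp
        · rintro (rfl | rfl)
          · exact ⟨0, rfl⟩
          · exact ⟨1, rfl⟩
      rw [e1]
      exact h

/-- A corner of a triangle. -/
lemma tri_corner {n : ℕ} (A : Matrix (Fin n) (Fin n) ℂ) (a b c : ℂ)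
    (h : MW A ⊆ convexHull ℝ {a, b, c})
    (hD : (b.re - a.re) * (c.im - a.im) - (b.im - a.im) * (c.re - a.re) ≠ 0) (x : Fin n → ℂ)
    (hx : star x ⬝ᵥ x = 1) (hxp : star x ⬝ᵥ (A *ᵥ x) = a) :
    A *ᵥ x = a • x ∧ Aᴴ *ᵥ x = star a • x := by
  set D : ℝ := (b.re - a.re) * (c.im - a.im) - (b.im - a.im) * (c.re - a.re) with hDdef
  refine corner A {a, b, c} h a ⟨-D * (b.im - a.im), -D * (b.re - a.re)⟩
    ⟨D * (c.im - a.im), D * (c.re - a.re)⟩ ?_ ?_ ?_ x hx hxp
  · rintro z (rfl | rfl | rfl)
    · simp
    · simp only [Complex.mul_re, Complex.sub_re, Complex.sub_im]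
      nlinarith
    · simp only [Complex.mul_re, Complex.sub_re, Complex.sub_im]
      have e1 : -D * (b.im - a.im) * (z.re - a.re) - -D * (b.re - a.re) * (z.im - a.im) =
          D * D := by
        rw [hDdef]
        ring
      rw [e1]
      exact mul_self_nonneg D
  · rintro z (rfl | rfl | rfl)
    · simp
    · simp only [Complex.mul_re, Complex.sub_re, Complex.sub_im]
      have e1 : D * (c.im - a.im) * (z.re - a.re) - D * (c.re - a.re) * (z.im - a.im) =
          D * D := by
        rw [hDdef]
        ring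
      rw [e1]
      exact mul_self_nonneg D
    · simp only [Complex.mul_re, Complex.sub_re, Complex.sub_im]
      nlinarith
  · simp only [Complex.star_def, Complex.mul_im, Complex.conj_re, Complex.conj_im]
    have e1 : -D * (b.im - a.im) * (D * (c.re - a.re)) + -(-D * (b.re - a.re)) *
        (D * (c.im - a.im)) = D * D * D := by
      rw [hDdef]
      ring
    rw [e1]
    exact mul_ne_zero (mul_ne_zero hD hD) hD

/-- brick TRI. -/
theorem tri {n : ℕ} (A : Matrix (Fin n) (Fin n) ℂ) (a b c : ℂ)
    (h : MW A = convexHull ℝ {a, b, c}) : FinPropD A := by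
  have hmem : ∀ z ∈ ({a, b, c} : Set ℂ), z ∈ MW A := by
    intro z hz
    rw [h]
    exact subset_convexHull ℝ _ hz
  have ha : a ∈ MW A := hmem a (by simp)
  have hb : b ∈ MW A := hmem b (by simp)
  have hc : c ∈ MW A := hmem c (by simp)
  by_cases hcol : Collinear ℝ ({a, b, c} : Set ℂ)
  · -- one of the points is between the others
    have hseg : ∀ p q r : ℂ, Wbtw ℝ p q r → convexHull ℝ {p, q, r} ⊆ convexHull ℝ {p, r} := by
      intro p q r hw
      apply convexHull_min _ (convex_convexHull ℝ _)
      rintro z (rfl | rfl | rfl)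
      · exact subset_convexHull ℝ _ (by simp)
      · rw [convexHull_pair]
        exact mem_segment_iff_wbtw.2 hw
      · exact subset_convexHull ℝ _ (by simp)
    rcases hcol.wbtw_or_wbtw_or_wbtw with hw | hw | hw
    · exact seg_case A a c ha hc (h ▸ hseg a b c hw)
    · refine seg_case A b a hb ha ?_
      have e1 : ({a, b, c} : Set ℂ) = {b, c, a} := by
        ext z
        simp only [Set.mem_insert_iff, Set.mem_singleton_iff]
        tauto
      rw [h, e1]
      exact hseg b c a hw
    · refine seg_case A c b hc hb ?_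
      have e1 : ({a, b, c} : Set ℂ) = {c, a, b} := by
        ext z
        simp only [Set.mem_insert_iff, Set.mem_singleton_iff]
        tauto
      rw [h, e1]
      exact hseg c a b hw
  · have hD : (b.re - a.re) * (c.im - a.im) - (b.im - a.im) * (c.re - a.re) ≠ 0 := by
      intro h0
      apply hcol
      by_cases hab : b = a
      · rw [hab, Set.insert_eq_of_mem (Set.mem_insert a _)]
        exact collinear_pair ℝ a c
      · rw [collinear_iff_of_mem (p₀ := a) (by simp)]
        refine ⟨b - a, ?_⟩
        have hns : Complex.normSq (b - a) ≠ 0 := by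
          rw [Ne, Complex.normSq_eq_zero]
          exact sub_ne_zero.2 hab
        rintro z (rfl | rfl | rfl)
        · exact ⟨0, by simp⟩
        · exact ⟨1, by simp⟩
        · refine ⟨((b.re - a.re) * (z.re - a.re) + (b.im - a.im) * (z.im - a.im)) /
            Complex.normSq (b - a), ?_⟩
          rw [vadd_eq_add, Complex.real_smul, ← sub_eq_iff_eq_add]
          rw [Complex.normSq_apply] at hns ⊢
          simp only [Complex.sub_re, Complex.sub_im] at hns ⊢
          apply Complex.ext
          · rw [Complex.re_ofReal_mul, Complex.sub_re, Complex.sub_re, div_mul_eq_mul_div,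
              eq_div_iff hns]
            linear_combination (-(b.im - a.im)) * h0
          · rw [Complex.im_ofReal_mul, Complex.sub_im, Complex.sub_im, div_mul_eq_mul_div,
              eq_div_iff hns]
            linear_combination (b.re - a.re) * h0
    obtain ⟨xa, hxa, hxa'⟩ := ha
    obtain ⟨xb, hxb, hxb'⟩ := hb
    obtain ⟨xc, hxc, hxc'⟩ := hc
    have k1 := tri_corner A a b c h.subset hD xa hxa hxa'
    have e1 : ({a, b, c} : Set ℂ) = {b, c, a} := by
      ext z
      simp only [Set.mem_insert_iff, Set.mem_singleton_iff]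
      tauto
    have e2 : ({a, b, c} : Set ℂ) = {c, a, b} := by
      ext z
      simp only [Set.mem_insert_iff, Set.mem_singleton_iff]
      tauto
    have k2 := tri_corner A b c a (by rw [h, e1]) (by
      intro h0
      apply hD
      linear_combination h0) xb hxb hxb'
    have k3 := tri_corner A c a b (by rw [h, e2]) (by
      intro h0
      apply hD
      linear_combination h0) xc hxc hxc'
    have hab : a ≠ b := by
      rintro rfl
      apply hD
      ring
    have hac : a ≠ c := by
      rintro rfl
      apply hD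
      ring
    have hbc : b ≠ c := by
      rintro rfl
      apply hD
      ring
    have hr : Set.range ![a, b, c] = {a, b, c} := by
      ext z
      constructor
      · rintro ⟨i, rfl⟩
        fin_cases i <;> simp
      · rintro (rfl | rfl | rfl)
        · exact ⟨0, rfl⟩
        · exact ⟨1, rfl⟩
        · exact ⟨2, rfl⟩
    refine assemble (k := 3) A ![a, b, c] ?_ ![xa, xb, xc] ?_ ?_ ?_ 0 1 2 ?_ ?_
    · intro i j hij
      fin_cases i <;> fin_cases j
      · rfl
      · exact absurd hij hab
      · exact absurd hij hac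
      · exact absurd hij hab.symm
      · rfl
      · exact absurd hij hbc
      · exact absurd hij hac.symm
      · exact absurd hij hbc.symm
      · rfl
    · intro i
      fin_cases i
      · exact hxa
      · exact hxb
      · exact hxc
    · intro i
      fin_cases i
      · exact k1.1
      · exact k2.1
      · exact k3.1
    · intro i
      fin_cases i
      · exact k1.2
      · exact k2.2
      · exact k3.2
    · intro i
      apply subset_convexHull
      fin_cases i <;> simp
    · rw [hr]
      exact h.subset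

end Pool.Agent.K3h33.ND
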